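import Mathlib

/-!
# State transfer on oriented graphs: decompositions into eigenvectors, Cartesian products
-/

namespace Pool.Agent.Q253.MST

open Matrix Finset Complex

/-- the exponential acts on an eigenvector as expected -/
theorem exp_mulVec {V : Type} [Fintype V] [DecidableEq V] (M : Matrix V V ℂ) (c : ℂ) (w : V → ℂ)
    (h : M *ᵥ w = c • w) : NormedSpace.exp M *ᵥ w = Complex.exp c • w := by
  let _i1 : NormedRing (Matrix V V ℂ) := Matrix.linftyOpNormedRing
  let _i2 : NormedAlgebra ℂ (Matrix V V ℂ) := Matrix.linftyOpNormedAlgebra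
  have hpow : ∀ n : ℕ, (M ^ n) *ᵥ w = c ^ n • w := by
    intro n
    induction n with
    | zero => simp
    | succ n ih => rw [pow_succ', ← Matrix.mulVec_mulVec, ih, Matrix.mulVec_smul, h, smul_smul,
        pow_succ]
  have hs : HasSum (fun n : ℕ => ((n.factorial : ℂ)⁻¹) • M ^ n) (NormedSpace.exp M) := by
    have := NormedSpace.exp_series_hasSum_exp' (𝕂 := ℂ) M
    exact this
  let L : Matrix V V ℂ →ₗ[ℂ] (V → ℂ) :=
    { toFun := fun N => N *ᵥ w
      map_add' := fun a b => Matrix.add_mulVec a b w
      map_smul' := fun a b => Matrix.smul_mulVec a b w }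
  have hL : Continuous L := L.continuous_of_finiteDimensional
  have hs2 := hs.map L hL
  have hs3 : HasSum (fun n : ℕ => ((n.factorial : ℂ)⁻¹ * c ^ n) • w) (NormedSpace.exp M *ᵥ w) := by
    have e : (fun n : ℕ => ((n.factorial : ℂ)⁻¹ * c ^ n) • w)
        = (fun n : ℕ => L (((n.factorial : ℂ)⁻¹) • M ^ n)) := by
      funext n
      show _ = (((n.factorial : ℂ)⁻¹) • M ^ n) *ᵥ w
      rw [Matrix.smul_mulVec, hpow, smul_smul]
    rw [e]
    exact hs2
  have hs4 : HasSum (fun n : ℕ => ((n.factorial : ℂ)⁻¹ * c ^ n) • w) (Complex.exp c • w) := by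
    have h5 : HasSum (fun n : ℕ => ((n.factorial : ℂ)⁻¹) • c ^ n) (NormedSpace.exp c) := by
      exact NormedSpace.exp_series_hasSum_exp' (𝕂 := ℂ) c
    rw [← Complex.exp_eq_exp_ℂ] at h5
    have := h5.smul_const w
    simpa using this
  exact hs3.unique hs4

/-- `x` is a sum of eigenvectors `w j` of `S` (eigenvalues `μ j`) and `y = ∑ exp(-t μ j) w j` -/
def Dec {V : Type} [Fintype V] (S : Matrix V V ℂ) (t : ℝ) (x y : V → ℂ) : Prop :=
  ∃ (J : Type) (_ : Fintype J) (μ : J → ℂ) (w : J → V → ℂ),
    (∀ j, S *ᵥ w j = μ j • w j) ∧ (∀ a, x a = ∑ j, w j a) ∧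
      ∀ a, y a = ∑ j, Complex.exp (-(t * μ j)) * w j a

theorem Dec.exp {V : Type} [Fintype V] [DecidableEq V] {S : Matrix V V ℂ} {t : ℝ} {x y : V → ℂ}
    (h : Dec S t x y) : NormedSpace.exp ((I * t : ℂ) • (I • S)) *ᵥ x = y := by
  obtain ⟨J, _, μ, w, hw, hx, hy⟩ := h
  have ex : x = ∑ j, w j := by
    funext a
    rw [hx, Finset.sum_apply]
  have ey : y = ∑ j, Complex.exp (-(t * μ j)) • w j := by
    funext a
    rw [hy, Finset.sum_apply]
    rfl
  have eS : (I * t : ℂ) • (I • S) = (-(t : ℂ)) • S := by
    rw [smul_smul]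
    congr 1
    have := I_mul_I
    linear_combination (t : ℂ) * this
  rw [ex, ey, eS, Matrix.mulVec_sum]
  refine Finset.sum_congr rfl fun j _ => ?_
  rw [exp_mulVec _ (-(t * μ j)) (w j)]
  rw [Matrix.smul_mulVec, hw j, smul_smul]
  congr 1
  ring

/-- decompositions of two factors give one of the Cartesian product -/
theorem Dec.prod {V W : Type} [Fintype V] [Fintype W] [DecidableEq V] [DecidableEq W]
    {S : Matrix V V ℂ} {T : Matrix W W ℂ} {R : Matrix (V × W) (V × W) ℂ}
    (hR : ∀ a b a' b', R (a, b) (a', b') =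
      (if b = b' then S a a' else 0) + if a = a' then T b b' else 0)
    {t : ℝ} {x y : V → ℂ} {x' y' : W → ℂ} (h : Dec S t x y) (h' : Dec T t x' y') :
    Dec R t (fun p => x p.1 * x' p.2) (fun p => y p.1 * y' p.2) := by
  obtain ⟨J, _, μ, w, hw, hx, hy⟩ := h
  obtain ⟨K, _, ν, u, hu, hx', hy'⟩ := h'
  refine ⟨J × K, inferInstance, fun p => μ p.1 + ν p.2, fun p q => w p.1 q.1 * u p.2 q.2, ?_, ?_,
    ?_⟩
  · rintro ⟨j, k⟩
    funext ⟨a, b⟩
    have h1 : ∑ a', S a a' * w j a' = μ j * w j a := by
      have := congrFun (hw j) a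
      simpa [Matrix.mulVec, dotProduct] using this
    have h2 : ∑ b', T b b' * u k b' = ν k * u k b := by
      have := congrFun (hu k) b
      simpa [Matrix.mulVec, dotProduct] using this
    show ∑ q : V × W, R (a, b) q * (w j q.1 * u k q.2) = (μ j + ν k) * (w j a * u k b)
    rw [Fintype.sum_prod_type]
    have h3 : ∀ a' b', R (a, b) (a', b') * (w j a' * u k b') =
        (if b = b' then S a a' * (w j a' * u k b') else 0) +
          if a = a' then T b b' * (w j a' * u k b') else 0 := by
      intro a' b'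
      rw [hR]
      split_ifs <;> ring
    calc ∑ a', ∑ b', R (a, b) (a', b') * (w j a' * u k b')
        = ∑ a', ∑ b', ((if b = b' then S a a' * (w j a' * u k b') else 0) +
          if a = a' then T b b' * (w j a' * u k b') else 0) :=
          Finset.sum_congr rfl fun a' _ => Finset.sum_congr rfl fun b' _ => h3 a' b'
      _ = (∑ a', S a a' * (w j a' * u k b)) + ∑ b', T b b' * (w j a * u k b') := by
          simp_rw [Finset.sum_add_distrib]
          congr 1
          · refine Finset.sum_congr rfl fun a' _ => ?_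
            simp
          · rw [Finset.sum_comm]
            refine Finset.sum_congr rfl fun b' _ => ?_
            simp
      _ = (∑ a', S a a' * w j a') * u k b + (∑ b', T b b' * u k b') * w j a := by
          rw [Finset.sum_mul, Finset.sum_mul]
          congr 1
          · exact Finset.sum_congr rfl fun _ _ => by ring
          · exact Finset.sum_congr rfl fun _ _ => by ring
      _ = (μ j + ν k) * (w j a * u k b) := by
          rw [h1, h2]; ring
  · rintro ⟨a, b⟩
    show x a * x' b = _
    rw [hx, hx', Finset.sum_mul_sum, Fintype.sum_prod_type]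
  · rintro ⟨a, b⟩
    show y a * y' b = _
    rw [hy, hy', Finset.sum_mul_sum, Fintype.sum_prod_type]
    refine Finset.sum_congr rfl fun j _ => Finset.sum_congr rfl fun k _ => ?_
    rw [show -((t : ℂ) * (μ j + ν k)) = -(t * μ j) + -(t * ν k) by ring, Complex.exp_add]
    ring

/-- the skew adjacency matrix of the arcs `arc` -/
noncomputable def skew {V : Type} (arc : V → V → Prop) : Matrix V V ℂ := by
  classical
  exact fun a b => if arc a b then 1 else if arc b a then -1 else 0

theorem skew_apply {V : Type} (arc : V → V → Prop) [∀ a b, Decidable (arc a b)] (a b : V) :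
    skew arc a b = if arc a b then 1 else if arc b a then -1 else 0 := by
  unfold skew
  congr

end Pool.Agent.Q253.MST
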