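import Pool.Agent.Q253.MST.Basic

/-!
# The two factors
-/

namespace Pool.Agent.Q253.MST

open Matrix Finset Complex

/-- vertices of `X`: three special vertices `a 0, a 1, a 2` and three classes `D 0, D 1, D 2` of
`8 * 4 = 32` vertices -/
abbrev VX : Type := Fin 3 ⊕ (Fin 3 × Fin 8 × Fin 4)

/-- arcs of `X`: `a (k+1) → D k`, `D k → a (k+2)` (all), and `D k → D (k+1)` in `8` blocks
`K_{4,4}` -/
def arcX : VX → VX → Prop
  | Sum.inl _, Sum.inl _ => False
  | Sum.inl j, Sum.inr d => j = d.1 + 1
  | Sum.inr d, Sum.inl j => j = d.1 + 2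
  | Sum.inr d, Sum.inr e => e.1 = d.1 + 1 ∧ d.2.1 = e.2.1

instance : ∀ a b, Decidable (arcX a b)
  | Sum.inl _, Sum.inl _ => inferInstanceAs (Decidable False)
  | Sum.inl j, Sum.inr d => inferInstanceAs (Decidable (j = d.1 + 1))
  | Sum.inr d, Sum.inl j => inferInstanceAs (Decidable (j = d.1 + 2))
  | Sum.inr d, Sum.inr e => inferInstanceAs (Decidable (e.1 = d.1 + 1 ∧ d.2.1 = e.2.1))

theorem arcX_asymm : ∀ a b, arcX a b → ¬ arcX b a := by
  rintro (j | ⟨k, p, q⟩) (j' | ⟨k', p', q'⟩) h h'
  · exact h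
  · simp only [arcX] at h h'
    revert h h'; revert j k'; decide
  · simp only [arcX] at h h'
    revert h h'; revert j' k; decide
  · simp only [arcX] at h h'
    have h1 := h.1
    have h2 := h'.1
    revert h1 h2; clear h h'; revert k k'; decide

/-- class functions on `X` -/
def vX (α δ : Fin 3 → ℂ) : VX → ℂ := Sum.elim α (fun d => δ d.1)

theorem skewX_mul (α δ : Fin 3 → ℂ) : skew arcX *ᵥ vX α δ =
    vX (fun j => 32 * (δ (j + 2) - δ (j + 1)))
      (fun k => α (k + 2) - α (k + 1) + 4 * (δ (k + 1) - δ (k + 2))) := by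
  have hsum : ∀ (f : Fin 3 × Fin 8 × Fin 4 → ℂ), ∑ d, f d = ∑ k, ∑ p, ∑ q, f (k, p, q) := by
    intro f
    rw [Fintype.sum_prod_type]
    refine Finset.sum_congr rfl fun k _ => ?_
    rw [Fintype.sum_prod_type]
  funext v
  show ∑ b, skew arcX v b * vX α δ b = _
  rw [Fintype.sum_sum_type, hsum]
  rcases v with j | ⟨k, p, q⟩
  · have h1 : ∀ b : Fin 3, skew arcX (Sum.inl j) (Sum.inl b) = 0 := by
      intro b; rw [skew_apply]; simp [arcX]
    have h2 : ∀ k p q, skew arcX (Sum.inl j) (Sum.inr (k, p, q)) =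
        if j = k + 1 then 1 else if j = k + 2 then -1 else 0 := by
      intro k p q; rw [skew_apply]; simp only [arcX]; split_ifs <;> rfl
    simp only [h1, h2, zero_mul, Finset.sum_const_zero, zero_add, vX, Sum.elim_inl, Sum.elim_inr,
      Finset.sum_const, Finset.card_univ, Fintype.card_fin, Fin.sum_univ_three]
    fin_cases j <;> simp <;> ring
  · have h1 : ∀ b : Fin 3, skew arcX (Sum.inr (k, p, q)) (Sum.inl b) =
        if b = k + 2 then 1 else if b = k + 1 then -1 else 0 := by
      intro b; rw [skew_apply]; simp only [arcX]; split_ifs <;> rfl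
    have h2 : ∀ k' p' q', skew arcX (Sum.inr (k, p, q)) (Sum.inr (k', p', q')) =
        if p = p' then (if k' = k + 1 then 1 else if k' = k + 2 then -1 else 0) else 0 := by
      intro k' p' q'
      rw [skew_apply]
      simp only [arcX]
      have e : k = k' + 1 ↔ k' = k + 2 := by
        clear h1
        revert k k'; decide
      by_cases hp : p = p'
      · subst hp
        simp [e]
      · have hp' : ¬ p' = p := fun h => hp h.symm
        simp [hp, hp']
    simp only [h1, h2, vX, Sum.elim_inl, Sum.elim_inr, Finset.sum_const, Finset.card_univ,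
      Fintype.card_fin, ite_mul, zero_mul, Fin.sum_univ_three, Finset.sum_ite_eq, Finset.mem_univ,
      if_true, smul_ite, smul_zero, one_mul, neg_mul]
    fin_cases k <;> simp <;> ring

/-- vertices of `Y` -/
abbrev VY : Type := Fin 2 ⊕ Fin 54

/-- arcs of `Y`: `0 → w → 1` -/
def arcY : VY → VY → Prop
  | Sum.inl j, Sum.inr _ => j = 0
  | Sum.inr _, Sum.inl j => j = 1
  | _, _ => False

instance : ∀ a b, Decidable (arcY a b)
  | Sum.inl _, Sum.inl _ => inferInstanceAs (Decidable False)
  | Sum.inl j, Sum.inr _ => inferInstanceAs (Decidable (j = 0))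
  | Sum.inr _, Sum.inl j => inferInstanceAs (Decidable (j = 1))
  | Sum.inr _, Sum.inr _ => inferInstanceAs (Decidable False)

theorem arcY_asymm : ∀ a b, arcY a b → ¬ arcY b a := by
  rintro (j | w) (j' | w') h h'
  · exact h
  · simp only [arcY] at h h'
    rw [h] at h'
    exact absurd h' (by decide)
  · simp only [arcY] at h h'
    rw [h] at h'
    exact absurd h' (by decide)
  · exact h

/-- class functions on `Y` -/
def vY (α : Fin 2 → ℂ) (β : ℂ) : VY → ℂ := Sum.elim α (fun _ => β)

theorem skewY_mul (α : Fin 2 → ℂ) (β : ℂ) : skew arcY *ᵥ vY α β =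
    vY ![54 * β, -(54 * β)] (α 1 - α 0) := by
  funext v
  show ∑ b, skew arcY v b * vY α β b = _
  rw [Fintype.sum_sum_type]
  rcases v with j | w
  · have h1 : ∀ b : Fin 2, skew arcY (Sum.inl j) (Sum.inl b) = 0 := by
      intro b; rw [skew_apply]; simp [arcY]
    have h2 : ∀ w, skew arcY (Sum.inl j) (Sum.inr w) =
        if j = 0 then 1 else if j = 1 then -1 else 0 := by
      intro w; rw [skew_apply]; simp only [arcY]; split_ifs <;> rfl
    simp only [h1, h2, zero_mul, Finset.sum_const_zero, zero_add, vY, Sum.elim_inl, Sum.elim_inr,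
      Finset.sum_const, Finset.card_univ, Fintype.card_fin]
    fin_cases j <;> simp
  · have h1 : ∀ b : Fin 2, skew arcY (Sum.inr w) (Sum.inl b) =
        if b = 1 then 1 else if b = 0 then -1 else 0 := by
      intro b; rw [skew_apply]; simp only [arcY]; split_ifs <;> rfl
    have h2 : ∀ w', skew arcY (Sum.inr w) (Sum.inr w') = 0 := by
      intro w'; rw [skew_apply]; simp [arcY]
    simp only [h1, h2, zero_mul, Finset.sum_const_zero, add_zero, vY, Sum.elim_inl, Sum.elim_inr,
      Fin.sum_univ_two]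
    simp
    ring

end Pool.Agent.Q253.MST
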