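import Pool.Agent.Q253.MST.Graphs

/-!
# Transfer on `X`, on `Y` and on the Cartesian product
-/

namespace Pool.Agent.Q253.MST

open Matrix Finset Complex

theorem Dec.eig {V : Type} [Fintype V] {S : Matrix V V ℂ} (t : ℝ) {μ : ℂ} {w : V → ℂ}
    (h : S *ᵥ w = μ • w) : Dec S t w (fun a => Complex.exp (-(t * μ)) * w a) :=
  ⟨Unit, inferInstance, fun _ => μ, fun _ => w, fun _ => h, fun a => by simp, fun a => by simp⟩

theorem Dec.add {V : Type} [Fintype V] {S : Matrix V V ℂ} {t : ℝ} {x y x' y' : V → ℂ}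
    (h : Dec S t x y) (h' : Dec S t x' y') :
    Dec S t (fun a => x a + x' a) (fun a => y a + y' a) := by
  obtain ⟨J, _, μ, w, hw, hx, hy⟩ := h
  obtain ⟨K, _, ν, u, hu, hx', hy'⟩ := h'
  refine ⟨J ⊕ K, inferInstance, Sum.elim μ ν, Sum.elim w u, ?_, ?_, ?_⟩
  · rintro (j | k)
    · exact hw j
    · exact hu k
  · intro a
    rw [Fintype.sum_sum_type]
    show x a + x' a = _
    rw [hx, hx']
    rfl
  · intro a
    rw [Fintype.sum_sum_type]
    show y a + y' a = _
    rw [hy, hy']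
    rfl

theorem Dec.congr {V : Type} [Fintype V] {S : Matrix V V ℂ} {t : ℝ} {x y x' y' : V → ℂ}
    (h : Dec S t x y) (hx : ∀ a, x a = x' a) (hy : ∀ a, y a = y' a) : Dec S t x' y' := by
  have e1 : x = x' := funext hx
  have e2 : y = y' := funext hy
  rw [← e1, ← e2]
  exact h

/-- the basic time `π / (6 √3)` -/
noncomputable def t1 : ℝ := Real.pi / (6 * Real.sqrt 3)

theorem t1_mul : (t1 : ℂ) * ((Real.sqrt 3 : ℝ) : ℂ) = (Real.pi : ℂ) / 6 := by
  have h3 : (0 : ℝ) < Real.sqrt 3 := Real.sqrt_pos.2 (by norm_num)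
  have : t1 * Real.sqrt 3 = Real.pi / 6 := by
    unfold t1
    field_simp
  rw [← Complex.ofReal_mul, this]
  push_cast
  ring

/-- `1, ζ, ζ²` -/
def c (ζ : ℂ) : Fin 3 → ℂ := ![1, ζ, ζ ^ 2]

theorem c_one {ζ : ℂ} (h : ζ ^ 2 + ζ + 1 = 0) (j : Fin 3) : c ζ (j + 1) = ζ * c ζ j := by
  have h3 : ζ * ζ ^ 2 = 1 := by linear_combination (ζ - 1) * h
  fin_cases j <;> simp [c]
  · ring
  · exact h3.symm

theorem c_two {ζ : ℂ} (h : ζ ^ 2 + ζ + 1 = 0) (j : Fin 3) : c ζ (j + 2) = ζ ^ 2 * c ζ j := by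
  have : j + 2 = j + 1 + 1 := by revert j; decide
  rw [this, c_one h, c_one h]
  ring

theorem eigX {ζ : ℂ} (h : ζ ^ 2 + ζ + 1 = 0) (m : Fin 3) (A B ν : ℂ) (h1 : ν * A = 32 * B)
    (h2 : ν * B = A - 4 * B) :
    skew arcX *ᵥ vX (fun j => A * c ζ (j - m)) (fun j => B * c ζ (j - m)) =
      (ν * (ζ ^ 2 - ζ)) • vX (fun j => A * c ζ (j - m)) (fun j => B * c ζ (j - m)) := by
  rw [skewX_mul]
  have e1 : ∀ j : Fin 3, j + 1 - m = (j - m) + 1 := by intro j; revert j m; decide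
  have e2 : ∀ j : Fin 3, j + 2 - m = (j - m) + 2 := by intro j; revert j m; decide
  funext v
  rcases v with j | d
  · simp only [vX, Sum.elim_inl, Pi.smul_apply, smul_eq_mul, e1, e2, c_one h, c_two h]
    linear_combination (-(ζ ^ 2 - ζ) * c ζ (j - m)) * h1
  · simp only [vX, Sum.elim_inr, Pi.smul_apply, smul_eq_mul, e1, e2, c_one h, c_two h]
    linear_combination (-(ζ ^ 2 - ζ) * c ζ (d.1 - m)) * h2

/-- the part of frequency `ζ` -/
theorem decX_part {ζ : ℂ} (h : ζ ^ 2 + ζ + 1 = 0)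
    (h4 : Complex.exp (-(t1 * (4 * (ζ ^ 2 - ζ)))) = ζ)
    (h8 : Complex.exp (-(t1 * ((-8) * (ζ ^ 2 - ζ)))) = ζ) (m : Fin 3) :
    Dec (skew arcX) t1 (vX (fun j => 1 / 3 * c ζ (j - m)) 0)
      (vX (fun j => 1 / 3 * (ζ * c ζ (j - m))) 0) := by
  have d1 := Dec.eig t1 (eigX h m (8 / 36) (1 / 36) 4 (by norm_num) (by norm_num))
  have d2 := Dec.eig t1 (eigX h m (4 / 36) (-1 / 36) (-8) (by norm_num) (by norm_num))
  rw [h4] at d1
  rw [h8] at d2
  refine (d1.add d2).congr ?_ ?_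
  · rintro (j | d)
    · simp only [vX, Sum.elim_inl]
      ring
    · simp only [vX, Sum.elim_inr, Pi.zero_apply]
      ring
  · rintro (j | d)
    · simp only [vX, Sum.elim_inl]
      ring
    · simp only [vX, Sum.elim_inr, Pi.zero_apply]
      ring

theorem decX_const : Dec (skew arcX) t1 (vX (fun _ => 1 / 3) 0) (vX (fun _ => 1 / 3) 0) := by
  have h : skew arcX *ᵥ vX (fun _ => 1 / 3) 0 = (0 : ℂ) • vX (fun _ => 1 / 3) 0 := by
    rw [skewX_mul]
    funext v
    rcases v with j | d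
    · simp [vX]
    · simp [vX]
  refine (Dec.eig t1 h).congr (fun _ => rfl) (fun a => ?_)
  simp

/-- `exp (2 π i / 3)` -/
noncomputable def om : ℂ := -1 / 2 + ((Real.sqrt 3 : ℝ) : ℂ) / 2 * I

noncomputable def om' : ℂ := -1 / 2 - ((Real.sqrt 3 : ℝ) : ℂ) / 2 * I

theorem sq3 : ((Real.sqrt 3 : ℝ) : ℂ) ^ 2 = 3 := by
  rw [← Complex.ofReal_pow, Real.sq_sqrt (by norm_num)]
  norm_num

theorem om_eq : om ^ 2 + om + 1 = 0 := by
  unfold om
  have h := I_sq
  linear_combination (1 / 4 * ((Real.sqrt 3 : ℝ) : ℂ) ^ 2) * h - (1 / 4) * sq3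

theorem om'_eq : om' ^ 2 + om' + 1 = 0 := by
  unfold om'
  have h := I_sq
  linear_combination (1 / 4 * ((Real.sqrt 3 : ℝ) : ℂ) ^ 2) * h - (1 / 4) * sq3

theorem om_sub : om ^ 2 - om = -(((Real.sqrt 3 : ℝ) : ℂ) * I) := by
  have := om_eq
  have h2 : om ^ 2 - om = -1 - 2 * om := by linear_combination this
  rw [h2]
  unfold om
  ring

theorem om'_sub : om' ^ 2 - om' = ((Real.sqrt 3 : ℝ) : ℂ) * I := by
  have := om'_eq
  have h2 : om' ^ 2 - om' = -1 - 2 * om' := by linear_combination this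
  rw [h2]
  unfold om'
  ring

theorem exp_om : Complex.exp (2 * Real.pi / 3 * I) = om := by
  have h1 : Real.cos (2 * Real.pi / 3) = -1 / 2 := by
    rw [show 2 * Real.pi / 3 = Real.pi - Real.pi / 3 by ring, Real.cos_pi_sub,
      Real.cos_pi_div_three]
    norm_num
  have h2 : Real.sin (2 * Real.pi / 3) = Real.sqrt 3 / 2 := by
    rw [show 2 * Real.pi / 3 = Real.pi - Real.pi / 3 by ring, Real.sin_pi_sub,
      Real.sin_pi_div_three]
  have e : (2 * Real.pi / 3 * I : ℂ) = ((2 * Real.pi / 3 : ℝ) : ℂ) * I := by push_cast; ring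
  rw [e, Complex.exp_mul_I, ← Complex.ofReal_cos, ← Complex.ofReal_sin, h1, h2]
  unfold om
  push_cast
  ring

theorem exp_om' : Complex.exp (-(2 * Real.pi / 3 * I)) = om' := by
  have h1 : Real.cos (2 * Real.pi / 3) = -1 / 2 := by
    rw [show 2 * Real.pi / 3 = Real.pi - Real.pi / 3 by ring, Real.cos_pi_sub,
      Real.cos_pi_div_three]
    norm_num
  have h2 : Real.sin (2 * Real.pi / 3) = Real.sqrt 3 / 2 := by
    rw [show 2 * Real.pi / 3 = Real.pi - Real.pi / 3 by ring, Real.sin_pi_sub,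
      Real.sin_pi_div_three]
  have e : (-(2 * Real.pi / 3 * I) : ℂ) = ((-(2 * Real.pi / 3) : ℝ) : ℂ) * I := by push_cast; ring
  rw [e, Complex.exp_mul_I, ← Complex.ofReal_cos, ← Complex.ofReal_sin, Real.cos_neg,
    Real.sin_neg, h1, h2]
  unfold om'
  push_cast
  ring

theorem h4om : Complex.exp (-(t1 * (4 * (om ^ 2 - om)))) = om := by
  rw [om_sub, ← exp_om]
  congr 1
  linear_combination (4 * I) * t1_mul

theorem h8om : Complex.exp (-(t1 * ((-8) * (om ^ 2 - om)))) = om := by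
  rw [om_sub, ← exp_om]
  have e : (-(t1 * ((-8) * (-(((Real.sqrt 3 : ℝ) : ℂ) * I)))) : ℂ) =
      2 * Real.pi / 3 * I - 2 * Real.pi * I := by
    linear_combination (-8 * I) * t1_mul
  rw [e, Complex.exp_sub, Complex.exp_two_pi_mul_I, div_one]

theorem h4om' : Complex.exp (-(t1 * (4 * (om' ^ 2 - om')))) = om' := by
  rw [om'_sub, ← exp_om']
  congr 1
  linear_combination (-4 * I) * t1_mul

theorem h8om' : Complex.exp (-(t1 * ((-8) * (om' ^ 2 - om')))) = om' := by
  rw [om'_sub, ← exp_om']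
  have e : (-(t1 * ((-8) * (((Real.sqrt 3 : ℝ) : ℂ) * I))) : ℂ) =
      -(2 * Real.pi / 3 * I) + 2 * Real.pi * I := by
    linear_combination (8 * I) * t1_mul
  rw [e, Complex.exp_add, Complex.exp_two_pi_mul_I, mul_one]

/-- the walk on `X` moves `a m` to `a (m - 1)` in time `t1` -/
theorem decX (m : Fin 3) : Dec (skew arcX) t1 (Pi.single (Sum.inl m) 1)
    (Pi.single (Sum.inl (m + 2)) 1) := by
  have d := (decX_const.add (decX_part om_eq h4om h8om m)).add (decX_part om'_eq h4om' h8om' m)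
  have s1 : om + om' = -1 := by unfold om om'; ring
  have s2 : om ^ 2 + om' ^ 2 = -1 := by
    linear_combination om_eq + om'_eq - s1
  have s3 : om ^ 3 = 1 := by linear_combination (om - 1) * om_eq
  have s4 : om' ^ 3 = 1 := by linear_combination (om' - 1) * om'_eq
  refine d.congr ?_ ?_
  · rintro (j | e)
    · simp only [vX, Sum.elim_inl]
      fin_cases j <;> fin_cases m <;> simp [c] <;>
        first
        | (norm_num; done)
        | linear_combination (1 / 3) * s1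
        | linear_combination (1 / 3) * s2
    · simp [vX]
  · rintro (j | e)
    · simp only [vX, Sum.elim_inl]
      fin_cases j <;> fin_cases m <;> simp [c] <;>
        first
        | (norm_num; done)
        | linear_combination (1 / 3) * s1
        | linear_combination (1 / 3) * s2
        | linear_combination (1 / 3) * s3 + (1 / 3) * s4
    · simp [vX]

/-- the walk on `Y` exchanges the two special vertices in time `t1` -/
theorem decY (m : Fin 2) : Dec (skew arcY) t1 (Pi.single (Sum.inl m) 1)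
    (Pi.single (Sum.inl (m + 1)) 1) := by
  have hI := I_sq
  have h3 := sq3
  have e0 : skew arcY *ᵥ vY ![1 / 2, 1 / 2] 0 = (0 : ℂ) • vY ![1 / 2, 1 / 2] 0 := by
    rw [skewY_mul]
    funext v
    rcases v with j | d
    · fin_cases j <;> simp [vY]
    · simp [vY]
  have e1 : ∀ s : ℂ, s ^ 2 = 1 → ∀ a : ℂ,
      skew arcY *ᵥ vY ![a, -a] (a * (-(s * ((Real.sqrt 3 : ℝ) : ℂ) * I) / 9)) =
      (-(6 * s * ((Real.sqrt 3 : ℝ) : ℂ) * I)) •
        vY ![a, -a] (a * (-(s * ((Real.sqrt 3 : ℝ) : ℂ) * I) / 9)) := by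
    intro s hs a
    rw [skewY_mul]
    funext v
    rcases v with j | d
    · fin_cases j <;> simp [vY] <;> ring
    · simp [vY]
      linear_combination (-a * 2 / 3 * ((Real.sqrt 3 : ℝ) : ℂ) ^ 2 * I ^ 2) * hs -
        (a * 2 / 3 * I ^ 2) * h3 - (2 * a) * hI
  have x1 : ∀ s : ℂ, s = 1 ∨ s = -1 →
      Complex.exp (-(t1 * (-(6 * s * ((Real.sqrt 3 : ℝ) : ℂ) * I)))) = -1 := by
    intro s hs
    rcases hs with rfl | rfl
    · have e : (-(t1 * (-(6 * 1 * ((Real.sqrt 3 : ℝ) : ℂ) * I))) : ℂ) = Real.pi * I := by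
        linear_combination (6 * I) * t1_mul
      rw [e, Complex.exp_pi_mul_I]
    · have e : (-(t1 * (-(6 * (-1) * ((Real.sqrt 3 : ℝ) : ℂ) * I))) : ℂ) = -(Real.pi * I) := by
        linear_combination (-6 * I) * t1_mul
      rw [e, Complex.exp_neg, Complex.exp_pi_mul_I]
      norm_num
  have key : ∀ a : ℂ, Dec (skew arcY) t1 (vY ![1 / 2 + 2 * a, 1 / 2 - 2 * a] 0)
      (vY ![1 / 2 - 2 * a, 1 / 2 + 2 * a] 0) := by
    intro a
    have d0 := Dec.eig t1 e0
    have d1 := Dec.eig t1 (e1 1 (by norm_num) a)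
    have d2 := Dec.eig t1 (e1 (-1) (by norm_num) a)
    rw [x1 1 (Or.inl rfl)] at d1
    rw [x1 (-1) (Or.inr rfl)] at d2
    refine ((d0.add d1).add d2).congr ?_ ?_
    · rintro (j | e)
      · fin_cases j <;> simp [vY] <;> ring
      · simp [vY]
        ring
    · rintro (j | e)
      · fin_cases j <;> simp [vY] <;> ring
      · simp [vY]
        ring
  fin_cases m
  · refine (key (1 / 4)).congr ?_ ?_
    · rintro (j | e)
      · fin_cases j <;> simp [vY] <;> norm_num
      · simp [vY]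
    · rintro (j | e)
      · fin_cases j <;> simp [vY] <;> norm_num
      · simp [vY]
  · refine (key (-1 / 4)).congr ?_ ?_
    · rintro (j | e)
      · fin_cases j <;> simp [vY] <;> norm_num
      · simp [vY]
    · rintro (j | e)
      · fin_cases j <;> simp [vY] <;> norm_num
      · simp [vY]

end Pool.Agent.Q253.MST
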